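import Pool.Agent.Q51.SZ.Stm2
import Pool.Agent.W620.SC.Norm

/-! # Project SZ (helper51): Kummer elements -/

set_option autoImplicit false

namespace Pool.Agent.Q26.SZ

open Polynomial
open Pool.Agent.Q51.SZ
open Pool.Agent.W620.SC (root_mem exists_fixed_multiple)

theorem km1 : S_KM1 := by
  intro f q A _ _ _ N _ M _ S hq i j
  have hac : IsAlgClosed A := IsAlgClosure.isAlgClosed ℚ
  have hnm : Normal ℚ A := IsAlgClosure.normal ℚ A
  have hnN : Normal N A := Normal.tower_top_of_normal ℚ N A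
  obtain ⟨α, hα⟩ := S.hrt i j
  have hi : S.x - S.ι i.1 ≠ 0 := fun h => S.htr i.1 (sub_eq_zero.1 h).symm
  have hj : S.x - S.ι j.1 ≠ 0 := fun h => S.htr j.1 (sub_eq_zero.1 h).symm
  have hr : (S.x - S.ι i.1) / (S.x - S.ι j.1) ≠ 0 := div_ne_zero hi hj
  have hα0 : α ≠ 0 := by
    rintro rfl
    apply hr
    rw [← hα, zero_pow hq]
  have hfix : ∀ σ : N.fixingSubgroup, σ.1 i.1 = i.1 → σ.1 j.1 = j.1 →
      S.s σ ((S.x - S.ι i.1) / (S.x - S.ι j.1)) = (S.x - S.ι i.1) / (S.x - S.ι j.1) := by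
    intro σ h1 h2
    rw [map_div₀, map_sub, map_sub, S.hx, S.hι, S.hι, h1, h2]
  let e : N.fixingSubgroup ≃* (A ≃ₐ[N] A) := IntermediateField.fixingSubgroupEquiv N
  have he : ∀ (σ : A ≃ₐ[N] A) (z : A), (e.symm σ).1 z = σ z := fun σ z => rfl
  let s : (A ≃ₐ[N] A) →* RingAut M := S.s.comp e.symm.toMonoidHom
  have hs : ∀ σ : A ≃ₐ[N] A, s σ = S.s (e.symm σ) := fun _ => rfl
  have hι : ∀ σ a, s σ (S.ι a) = S.ι (σ a) := by
    intro σ a
    rw [hs, S.hι, he]
  let T : Subgroup (A ≃ₐ[N] A) := MulAction.stabilizer (A ≃ₐ[N] A) i.1 ⊓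
    MulAction.stabilizer (A ≃ₐ[N] A) j.1
  have hT : ∀ σ : A ≃ₐ[N] A, σ ∈ T ↔ σ i.1 = i.1 ∧ σ j.1 = j.1 := by
    intro σ
    change σ ∈ MulAction.stabilizer (A ≃ₐ[N] A) i.1 ⊓
      MulAction.stabilizer (A ≃ₐ[N] A) j.1 ↔ _
    rw [Subgroup.mem_inf, MulAction.mem_stabilizer_iff, MulAction.mem_stabilizer_iff]
    rfl
  obtain ⟨E0, hE1, hE2⟩ := S.cont α
  have hle : N ≤ E0 ⊔ N := le_sup_right
  let E : IntermediateField N A := IntermediateField.extendScalars hle
  have hEf : FiniteDimensional N E := by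
    have h1 : FiniteDimensional ℚ (E0 ⊔ N : IntermediateField ℚ A) := inferInstance
    have h2 : FiniteDimensional ℚ E := h1
    exact FiniteDimensional.right ℚ N E
  have hE : ∀ σ ∈ E.fixingSubgroup, s σ α = α := by
    intro σ hσ
    rw [hs]
    apply hE2
    rw [IntermediateField.mem_fixingSubgroup_iff] at hσ ⊢
    intro z hz
    rw [he]
    exact hσ z ((IntermediateField.mem_extendScalars hle).2 ((le_sup_left : E0 ≤ E0 ⊔ N) hz))
  obtain ⟨b, hb0, hb⟩ := exists_fixed_multiple s S.ι hι T α hα0 (by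
    intro σ hσ
    have hσ' := (hT σ).1 hσ
    have h1 : (s σ α) ^ q = α ^ q := by
      rw [← map_pow, hα, hs]
      exact hfix (e.symm σ) (by rw [he]; exact hσ'.1) (by rw [he]; exact hσ'.2)
    have h2 : (s σ α / α) ^ q = S.ι 1 := by
      rw [div_pow, h1, div_self (pow_ne_zero q hα0), map_one]
    obtain ⟨ζ, hζ⟩ := root_mem S.ι (Nat.pos_of_ne_zero hq) h2
    exact ⟨ζ, by rw [hζ, div_mul_cancel₀ _ hα0]⟩) E hE
  have hιb : S.ι b ≠ 0 := by rwa [Ne, map_eq_zero]
  refine ⟨(b ^ q)⁻¹, S.ι b * α, inv_ne_zero (pow_ne_zero q hb0), mul_ne_zero hιb hα0, ?_, ?_⟩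
  · rw [mul_pow, hα, map_inv₀, map_pow, ← mul_assoc, inv_mul_cancel₀ (pow_ne_zero q hιb), one_mul]
  · intro σ h1 h2
    have h3 : e σ ∈ T := by
      rw [hT]
      constructor
      · have := congrArg Subtype.val h1
        rw [smul_val] at this
        exact this
      · have := congrArg Subtype.val h2
        rw [smul_val] at this
        exact this
    have h4 := hb (e σ) h3
    rw [hs, e.symm_apply_apply] at h4
    exact h4

end Pool.Agent.Q26.SZ
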