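import Pool.Agent.Q51.SZ.Stm

/-! # Project SZ (helper51): a zero of `f` modulo `l` gives a zero fixed by the decomposition group -/

set_option autoImplicit false

namespace Pool.Agent.Q26.SZ

open Polynomial
open Pool.Agent.Q51.SZ
open Pool.Agent.Y157.PS

/-- the decomposition group preserves the nonunits -/
theorem dec_non {A : Type} [Field A] [Algebra ℚ A] {V : ValuationSubring A} {σ : A ≃ₐ[ℚ] A}
    (h : Dec V σ) {z : A} (hz : z ∈ V.nonunits) : σ z ∈ V.nonunits := by
  rw [nonunits_iff] at hz ⊢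
  refine ⟨(h z).2 hz.1, ?_⟩
  rcases hz.2 with h1 | h1
  · exact Or.inl (by rw [h1, map_zero])
  · right
    rw [← map_inv₀, h]
    exact h1

theorem isU_prod {A : Type} [Field A] {V : ValuationSubring A} (s : Multiset A)
    (h : ∀ z ∈ s, IsU V z) : IsU V s.prod := by
  induction s using Multiset.induction with
  | empty => rw [Multiset.prod_zero]; exact isU_one
  | cons a s ih =>
    rw [Multiset.prod_cons]
    exact (h a (Multiset.mem_cons_self a s)).mul
      (ih fun z hz => h z (Multiset.mem_cons_of_mem hz))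

theorem rtv : S_RTV := by
  intro f q B A _ _ _ hG l V hA ⟨r, hr⟩
  have hac : IsAlgClosed A := IsAlgClosure.isAlgClosed ℚ
  have hlc : IsU V ((f.leadingCoeff : ℤ) : A) := hG.lc l V hA
  have hlc0 : ((f.leadingCoeff : ℤ) : A) ≠ 0 := hlc.1
  have hch : CharZero A := algebraRat.charZero A
  have hf0 : f.map (Int.castRingHom A) ≠ 0 := by
    intro h
    have h1 := congrArg Polynomial.leadingCoeff h
    rw [leadingCoeff_map_of_injective (RingHom.injective_int (Int.castRingHom A)),
      leadingCoeff_zero] at h1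
    exact hlc0 (by simpa using h1)
  have hint : ∀ n : ℤ, ((n : ℤ) : A) ∈ V := fun n => intCast_mem V n
  -- the value at `r` is a nonunit
  have hev : (f.map (Int.castRingHom A)).eval ((r : ℤ) : A) ∈ V.nonunits := by
    have h1 : (f.map (Int.castRingHom A)).eval ((r : ℤ) : A) = ((f.eval r : ℤ) : A) := by
      rw [eval_intCast_map]
      rfl
    obtain ⟨c, hc⟩ := hr
    rw [h1, hc, Int.cast_mul, mul_comm]
    exact non_mul (hint c) (by rw [Int.cast_natCast]; exact hA.ab)
  have hsp : (f.map (Int.castRingHom A)).Splits := IsAlgClosed.splits _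
  have hpr := hsp.eval_eq_prod_roots ((r : ℤ) : A)
  rw [leadingCoeff_map_of_injective (RingHom.injective_int (Int.castRingHom A))] at hpr
  rw [hpr] at hev
  have h2 : ((f.map (Int.castRingHom A)).roots.map fun a => ((r : ℤ) : A) - a).prod ∈
      V.nonunits := non_of_isU_mul (by simpa using hlc) hev
  have h3 : ∃ e ∈ (f.map (Int.castRingHom A)).roots, ((r : ℤ) : A) - e ∈ V.nonunits := by
    by_contra hc
    push Not at hc
    refine (isU_prod (V := V) _ ?_).not_nonunit h2
    intro z hz
    obtain ⟨e, he, rfl⟩ := Multiset.mem_map.1 hz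
    have hem : e ∈ rts f A := mem_rts.2 ((mem_roots' ).1 he)
    exact isU_of_not_nonunit (sub_mem (hint r) (hG.int l V hA ⟨e, hem⟩)) (hc e he)
  obtain ⟨e, he, hen⟩ := h3
  have hem : e ∈ rts f A := mem_rts.2 (mem_roots'.1 he)
  refine ⟨⟨e, hem⟩, fun σ hσ => ?_⟩
  by_contra hne
  have h4 := dec_non hσ hen
  rw [map_sub, map_intCast] at h4
  have h5 := non_sub hen h4
  have h6 : ((r : ℤ) : A) - e - (((r : ℤ) : A) - σ e) = σ e - e := by ring
  rw [h6] at h5
  exact (hG.dist l V hA (σ • ⟨e, hem⟩) ⟨e, hem⟩ hne).not_nonunit h5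

end Pool.Agent.Q26.SZ
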